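import Mathlib
import Pool.Agent.W771.Hom
set_option autoImplicit false

/-! The extension operator of the paraboloid in `ℝ³` in rotated coordinates, and sums of atoms. -/

namespace Pool.Agent.V1157.TD

open MeasureTheory Set Complex Filter Topology
open scoped ENNReal NNReal
open Pool.Agent.W771

/-- The rotation of the plane by the angle `-θ`. -/
noncomputable def rot (θ : ℝ) (x : ℝ × ℝ) : ℝ × ℝ :=
  (x.1 * Real.cos θ + x.2 * Real.sin θ, x.2 * Real.cos θ - x.1 * Real.sin θ)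

lemma rot_rot (θ : ℝ) (x : ℝ × ℝ) : rot (-θ) (rot θ x) = x := by
  have h := Real.sin_sq_add_cos_sq θ
  ext
  · simp only [rot, Real.cos_neg, Real.sin_neg]
    linear_combination x.1 * h
  · simp only [rot, Real.cos_neg, Real.sin_neg]
    linear_combination x.2 * h

lemma rot_rot' (θ : ℝ) (x : ℝ × ℝ) : rot θ (rot (-θ) x) = x := by
  have := rot_rot (-θ) x
  rwa [neg_neg] at this

lemma rot_cont (θ : ℝ) : Continuous (rot θ) := by
  unfold rot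
  fun_prop

/-- The rotation as a measurable equivalence. -/
noncomputable def rotE (θ : ℝ) : (ℝ × ℝ) ≃ᵐ (ℝ × ℝ) where
  toFun := rot θ
  invFun := rot (-θ)
  left_inv := rot_rot θ
  right_inv := rot_rot' θ
  measurable_toFun := (rot_cont θ).measurable
  measurable_invFun := (rot_cont (-θ)).measurable

lemma rot_aux (φ : ℝ) (x : ℝ × ℝ) : Complex.measurableEquivRealProd
    (rotation (Circle.exp φ) (Complex.measurableEquivRealProd.symm x)) =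
      (x.1 * Real.cos φ - x.2 * Real.sin φ, x.2 * Real.cos φ + x.1 * Real.sin φ) := by
  have h1 : Complex.measurableEquivRealProd.symm x = (⟨x.1, x.2⟩ : ℂ) := rfl
  have h2 : ∀ z : ℂ, Complex.measurableEquivRealProd z = (z.re, z.im) := fun z => rfl
  have h3 : ((Circle.exp φ : Circle) : ℂ) = ⟨Real.cos φ, Real.sin φ⟩ := by
    rw [Circle.coe_exp]
    apply Complex.ext
    · rw [Complex.exp_ofReal_mul_I_re]
    · rw [Complex.exp_ofReal_mul_I_im]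
  rw [h2, h1, rotation_apply, h3]
  ext
  · simp only [Complex.mul_re]
    ring
  · simp only [Complex.mul_im]
    ring

lemma rot_eq (θ : ℝ) : rot θ = Complex.measurableEquivRealProd ∘
    (rotation (Circle.exp (-θ))) ∘ Complex.measurableEquivRealProd.symm := by
  funext x
  simp only [Function.comp_apply]
  rw [rot_aux]
  unfold rot
  rw [Real.cos_neg, Real.sin_neg]
  ext
  · simp only
    ring
  · simp only
    ring

lemma rot_mp (θ : ℝ) : MeasurePreserving (rot θ) volume volume := by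
  rw [rot_eq]
  exact Complex.volume_preserving_equiv_real_prod.comp
    (((rotation (Circle.exp (-θ))).measurePreserving).comp
      Complex.volume_preserving_equiv_real_prod.symm)

/-- The extension operator of the paraboloid in `ℝ³`. -/
noncomputable def ext (f : ℝ × ℝ → ℂ) (ξ : ℝ × ℝ × ℝ) : ℂ :=
  ∫ x : ℝ × ℝ, cexp (-(I * ((x.1 * ξ.1 + x.2 * ξ.2.1 + (x.1 ^ 2 + x.2 ^ 2) * ξ.2.2 : ℝ) : ℂ))) *
    f x

lemma ker_norm (s : ℝ) : ‖cexp (-(I * (s : ℂ)))‖ = 1 := by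
  rw [show -(I * (s : ℂ)) = ((-s : ℝ) : ℂ) * I by push_cast; ring]
  exact norm_exp_ofReal_mul_I _

lemma ker_enorm (s : ℝ) : ‖cexp (-(I * (s : ℂ)))‖ₑ = 1 := by
  rw [← ofReal_norm, ker_norm, ENNReal.ofReal_one]

lemma ext_rot (θ : ℝ) (F : ℝ × ℝ → ℂ) (ξ : ℝ × ℝ × ℝ) :
    ext (fun x => F (rot θ x)) ξ = EE F (rot θ (ξ.1, ξ.2.1)).1 (rot θ (ξ.1, ξ.2.1)).2 ξ.2.2 := by
  unfold ext EE
  have h := (rot_mp θ).integral_comp (rotE θ).measurableEmbedding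
    (fun w => F w * (ph (rot θ (ξ.1, ξ.2.1)).1 ξ.2.2 w.1 * ph (rot θ (ξ.1, ξ.2.1)).2 ξ.2.2 w.2))
  rw [← h]
  apply integral_congr_ae
  refine ae_of_all _ fun x => ?_
  simp only
  rw [mul_comm]
  congr 1
  unfold ph
  rw [← Complex.exp_add]
  congr 1
  have e : x.1 * ξ.1 + x.2 * ξ.2.1 + (x.1 ^ 2 + x.2 ^ 2) * ξ.2.2 =
      (rot θ x).1 * (rot θ (ξ.1, ξ.2.1)).1 + (rot θ x).1 ^ 2 * ξ.2.2 +
      ((rot θ x).2 * (rot θ (ξ.1, ξ.2.1)).2 + (rot θ x).2 ^ 2 * ξ.2.2) := by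
    simp only [rot]
    have h := Real.sin_sq_add_cos_sq θ
    linear_combination (-(x.1 * ξ.1) - x.2 * ξ.2.1 - (x.1 ^ 2 + x.2 ^ 2) * ξ.2.2) * h
  rw [e]
  push_cast
  ring

lemma lint_rot (θ : ℝ) (G : ℝ → ℝ → ℝ → ℝ≥0∞)
    (hG : Measurable fun z : ℝ × ℝ × ℝ => G z.1 z.2.1 z.2.2) :
    ∫⁻ ξ : ℝ × ℝ × ℝ, G (rot θ (ξ.1, ξ.2.1)).1 (rot θ (ξ.1, ξ.2.1)).2 ξ.2.2 =
      ∫⁻ t, ∫⁻ x, ∫⁻ y, G x y t := by
  have h1 : Measurable fun ξ : ℝ × ℝ × ℝ =>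
      G (rot θ (ξ.1, ξ.2.1)).1 (rot θ (ξ.1, ξ.2.1)).2 ξ.2.2 := by
    have h2 : Measurable fun ξ : ℝ × ℝ × ℝ =>
        (((rot θ (ξ.1, ξ.2.1)).1, (rot θ (ξ.1, ξ.2.1)).2, ξ.2.2) : ℝ × ℝ × ℝ) := by
      have h3 : Measurable fun ξ : ℝ × ℝ × ℝ => rot θ (ξ.1, ξ.2.1) :=
        (rot_cont θ).measurable.comp (by fun_prop)
      exact (measurable_fst.comp h3).prodMk ((measurable_snd.comp h3).prodMk (by fun_prop))
    exact hG.comp h2
  rw [lint_triple _ h1]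
  apply lintegral_congr
  intro t
  have hGt : Measurable fun w : ℝ × ℝ => G w.1 w.2 t := by
    have h2 : Measurable fun w : ℝ × ℝ => ((w.1, w.2, t) : ℝ × ℝ × ℝ) := by fun_prop
    exact hG.comp h2
  have hGr : Measurable fun w : ℝ × ℝ => G (rot θ w).1 (rot θ w).2 t :=
    hGt.comp (rot_cont θ).measurable
  have e1 : ∫⁻ x, ∫⁻ y, G (rot θ (x, y)).1 (rot θ (x, y)).2 t =
      ∫⁻ w : ℝ × ℝ, G (rot θ w).1 (rot θ w).2 t := by
    rw [Measure.volume_eq_prod, lintegral_prod _ hGr.aemeasurable]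
  have e2 : ∫⁻ x, ∫⁻ y, G x y t = ∫⁻ w : ℝ × ℝ, G w.1 w.2 t := by
    rw [Measure.volume_eq_prod, lintegral_prod _ hGt.aemeasurable]
  show ∫⁻ x, ∫⁻ y, G (rot θ (x, y)).1 (rot θ (x, y)).2 t = _
  rw [e1, e2]
  exact (rot_mp θ).lintegral_comp hGt

lemma ext_le (f : ℝ × ℝ → ℂ) (ξ : ℝ × ℝ × ℝ) : ‖ext f ξ‖ₑ ≤ ∫⁻ x, ‖f x‖ₑ := by
  unfold ext
  refine (enorm_integral_le_lintegral_enorm _).trans (le_of_eq ?_)
  apply lintegral_congr
  intro x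
  rw [enorm_mul, ker_enorm, one_mul]

lemma ext_meas {f : ℝ × ℝ → ℂ} (hf : Measurable f) : Measurable (ext f) := by
  unfold ext
  apply StronglyMeasurable.measurable
  apply StronglyMeasurable.integral_prod_right'
    (f := fun w : (ℝ × ℝ × ℝ) × (ℝ × ℝ) =>
      cexp (-(I * ((w.2.1 * w.1.1 + w.2.2 * w.1.2.1 + (w.2.1 ^ 2 + w.2.2 ^ 2) * w.1.2.2 : ℝ) : ℂ)))
        * f w.2)
  apply Measurable.stronglyMeasurable
  apply Measurable.mul
  · apply Continuous.measurable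
    fun_prop
  · exact hf.comp measurable_snd

/-- Sums. -/
lemma ext_tsum {f : ℝ × ℝ → ℂ} {F : ℕ → ℝ × ℝ → ℂ} (hF : ∀ j, Measurable (F j))
    (hs : ∑' j, ∫⁻ x, ‖F j x‖ₑ ≠ ∞) (hf : ∀ᵐ x, f x = ∑' j, F j x) (ξ : ℝ × ℝ × ℝ) :
    HasSum (fun j => ext (F j) ξ) (ext f ξ) := by
  have hk : Measurable fun x : ℝ × ℝ =>
      cexp (-(I * ((x.1 * ξ.1 + x.2 * ξ.2.1 + (x.1 ^ 2 + x.2 ^ 2) * ξ.2.2 : ℝ) : ℂ))) := by
    apply Continuous.measurable
    fun_prop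
  have h1 : ∑' j, ∫⁻ x, ‖cexp (-(I * ((x.1 * ξ.1 + x.2 * ξ.2.1 +
      (x.1 ^ 2 + x.2 ^ 2) * ξ.2.2 : ℝ) : ℂ))) * F j x‖ₑ ≠ ∞ := by
    convert hs using 4
    ext x
    rw [enorm_mul, ker_enorm, one_mul]
  have h2 := hasSum_integral_of_summable_integral_norm
    (F := fun j (x : ℝ × ℝ) => cexp (-(I * ((x.1 * ξ.1 + x.2 * ξ.2.1 +
      (x.1 ^ 2 + x.2 ^ 2) * ξ.2.2 : ℝ) : ℂ))) * F j x) (μ := volume)
    (fun j => ⟨(hk.mul (hF j)).aestronglyMeasurable, by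
      exact (ENNReal.ne_top_of_tsum_ne_top h1 j).lt_top⟩) (by
      have h3 : ∀ j, ∫ x : ℝ × ℝ, ‖cexp (-(I * ((x.1 * ξ.1 + x.2 * ξ.2.1 +
          (x.1 ^ 2 + x.2 ^ 2) * ξ.2.2 : ℝ) : ℂ))) * F j x‖ =
          (∫⁻ x, ‖cexp (-(I * ((x.1 * ξ.1 + x.2 * ξ.2.1 +
            (x.1 ^ 2 + x.2 ^ 2) * ξ.2.2 : ℝ) : ℂ))) * F j x‖ₑ).toReal := fun j =>
        integral_norm_eq_lintegral_enorm (hk.mul (hF j)).aestronglyMeasurable
      simp only [h3]
      exact ENNReal.summable_toReal h1)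
  have h4 : ext f ξ = ∫ x : ℝ × ℝ, ∑' j, cexp (-(I * ((x.1 * ξ.1 + x.2 * ξ.2.1 +
      (x.1 ^ 2 + x.2 ^ 2) * ξ.2.2 : ℝ) : ℂ))) * F j x := by
    unfold ext
    apply integral_congr_ae
    filter_upwards [hf] with x hx
    rw [tsum_mul_left, hx]
  rw [h4]
  exact h2

/-- Minkowski's inequality. -/
lemma ext_sum_le {f : ℝ × ℝ → ℂ} {F : ℕ → ℝ × ℝ → ℂ} (hF : ∀ j, Measurable (F j))
    (hs : ∑' j, ∫⁻ x, ‖F j x‖ₑ ≠ ∞) (hf : ∀ᵐ x, f x = ∑' j, F j x) {q : ℝ≥0∞} (hq : 1 ≤ q) :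
    eLpNorm (ext f) q volume ≤ ∑' j, eLpNorm (ext (F j)) q volume := by
  have h := fun ξ => (ext_tsum hF hs hf ξ).tendsto_sum_nat
  have hm : ∀ N, AEStronglyMeasurable (fun ξ => ∑ j ∈ Finset.range N, ext (F j) ξ) volume :=
    fun N => (Finset.measurable_sum _ fun j _ => ext_meas (hF j)).aestronglyMeasurable
  have h1 := Lp.eLpNorm_lim_le_liminf_eLpNorm (p := q) hm (ext f) (ae_of_all _ h)
  refine h1.trans ?_
  have h2 : ∀ N, eLpNorm (fun ξ => ∑ j ∈ Finset.range N, ext (F j) ξ) q volume ≤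
      ∑' j, eLpNorm (ext (F j)) q volume := by
    intro N
    have h3 : (fun ξ => ∑ j ∈ Finset.range N, ext (F j) ξ) =
        ∑ j ∈ Finset.range N, ext (F j) := by
      ext ξ
      simp
    rw [h3]
    refine (eLpNorm_sum_le (fun j _ => (ext_meas (hF j)).aestronglyMeasurable) hq).trans ?_
    exact ENNReal.sum_le_tsum _
  exact liminf_le_of_le (by isBoundedDefault) fun b hb => by
    obtain ⟨N, hN⟩ := hb.exists
    exact hN.trans (h2 N)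

end Pool.Agent.V1157.TD
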