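import Mathlib
import Pool.Agent.V1157.TD.A
set_option autoImplicit false

/-! The estimate for atoms and for their sums. -/

namespace Pool.Agent.V1157.TD

open MeasureTheory Set Complex Filter Topology
open scoped ENNReal NNReal
open Pool.Agent.W771

/-- The interval `[-1/2, 1/2]`. -/
def J : Set ℝ := Icc (-(1 / 2)) (1 / 2)

/-- Half a derivative in `L²` in the second variable. -/
def Half (K : ℝ≥0) (g : ℝ × ℝ → ℂ) : Prop :=
  ∀ u ∈ J, ∀ h ∈ Icc (0 : ℝ) 1, ∫⁻ v in Icc (-(1 / 2) : ℝ) (1 / 2 - h),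
    ‖g (u, v + h) - g (u, v)‖ₑ ^ 2 ≤ ENNReal.ofReal (K * h)

/-- The norm of `a` in `L^p(ℝ; L²(ν))`. -/
noncomputable def nrm {Λ : Type} [MeasurableSpace Λ] (ν : Measure Λ) (p : ℝ) (a : ℝ → Λ → ℂ) :
    ℝ≥0∞ := (∫⁻ u, (∫⁻ l, ‖a u l‖ₑ ^ 2 ∂ν) ^ (p / 2)) ^ (1 / p)

/-- atoms -/
def Atom (p : ℝ) (K : ℝ≥0) (n : ℕ) (A : ℝ≥0∞) (f : ℝ × ℝ → ℂ) : Prop :=
  ∃ (θ : ℝ) (Λ : Type) (_ : MeasurableSpace Λ) (ν : Measure Λ) (_ : SFinite ν) (a b : ℝ → Λ → ℂ)
    (g : Fin n → ℝ × ℝ → ℂ),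
    Measurable (Function.uncurry a) ∧ Measurable (Function.uncurry b) ∧
    (∀ u ∉ J, ∀ l, a u l = 0) ∧ (∀ v ∉ J, ∀ l, b v l = 0) ∧
    (∀ i, Measurable (g i)) ∧ (∀ i w, ‖g i w‖ ≤ 1) ∧
    (∀ i, Half K (g i) ∨ Half K fun w => g i w.swap) ∧
    (∀ x, f x = (∫ l, a (rot θ x).1 l * b (rot θ x).2 l ∂ν) * ∏ i, g i (rot θ x)) ∧
    nrm ν p a * nrm ν p b ≤ A

section
variable {Λ : Type} [MeasurableSpace Λ] (ν : Measure Λ) [SFinite ν] (a b : ℝ → Λ → ℂ)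
  (ha : Measurable (Function.uncurry a)) (hb : Measurable (Function.uncurry b))
  (hza : ∀ u ∉ J, ∀ l, a u l = 0) (hzb : ∀ v ∉ J, ∀ l, b v l = 0)

include ha hza in
lemma nrm_eq (p : ℝ) (hp : 0 < p) : nrm ν p a = mix ν a p ^ (1 / p) := by
  unfold nrm mix
  congr 1
  rw [← lintegral_indicator measurableSet_Icc]
  congr 1
  ext u
  by_cases hu : u ∈ J
  · rw [indicator_of_mem (show u ∈ II from hu)]
    rfl
  · rw [indicator_of_notMem (show u ∉ II from hu)]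
    have : N2 ν a u = 0 := N2_zero ν a II hza u hu
    show N2 ν a u ^ (p / 2) = 0
    rw [this, ENNReal.zero_rpow_of_pos (by positivity)]

include ha hb hza hzb in
/-- the `L¹` norm -/
lemma l1_le (p : ℝ) (hp : 1 ≤ p) (g : ℝ × ℝ → ℂ) (hgb : ∀ w, ‖g w‖ ≤ 1) :
    ∫⁻ w, ‖FF ν a b w * g w‖ₑ ≤ nrm ν p a * nrm ν p b := by
  have hp0 : 0 < p := by linarith
  have key : ∀ c : ℝ → Λ → ℂ, Measurable (Function.uncurry c) → (∀ u ∉ J, ∀ l, c u l = 0) →
      ∫⁻ u, (N2 ν c u) ^ (1 / 2 : ℝ) ≤ nrm ν p c := by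
    intro c hc hzc
    have h1 : ∫⁻ u, (N2 ν c u) ^ (1 / 2 : ℝ) = ∫⁻ u in II, (N2 ν c u) ^ (1 / 2 : ℝ) := by
      rw [← lintegral_indicator measurableSet_Icc]
      congr 1
      ext u
      by_cases hu : u ∈ II
      · rw [indicator_of_mem hu]
      · rw [indicator_of_notMem hu, N2_zero ν c II hzc u hu,
          ENNReal.zero_rpow_of_pos (by norm_num)]
    have hprob : IsProbabilityMeasure (volume.restrict II) :=
      ⟨by rw [Measure.restrict_apply_univ, vol_II]⟩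
    have h2 := eLpNorm'_le_eLpNorm'_of_exponent_le (f := fun u => (N2 ν c u) ^ (1 / 2 : ℝ))
      one_pos hp (volume.restrict II) ((N2_meas ν c hc).pow_const _).aestronglyMeasurable
    unfold eLpNorm' at h2
    simp only [enorm_eq_self, ENNReal.rpow_one, div_one] at h2
    rw [h1]
    refine h2.trans (le_of_eq ?_)
    rw [nrm_eq ν c hc hzc p hp0]
    unfold mix
    congr 1
    apply lintegral_congr
    intro u
    rw [← ENNReal.rpow_mul]
    congr 1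
    ring
  calc ∫⁻ w, ‖FF ν a b w * g w‖ₑ ≤ ∫⁻ w : ℝ × ℝ,
        (N2 ν a w.1) ^ (1 / 2 : ℝ) * (N2 ν b w.2) ^ (1 / 2 : ℝ) := by
        apply lintegral_mono
        intro w
        simp only
        rw [enorm_mul]
        calc ‖FF ν a b w‖ₑ * ‖g w‖ₑ ≤ ‖FF ν a b w‖ₑ * 1 := by
              gcongr
              rw [← ofReal_norm]
              exact ENNReal.ofReal_le_one.mpr (hgb w)
          _ ≤ _ := by
              rw [mul_one]
              exact FF_bound ν a b ha hb w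
    _ = (∫⁻ u, (N2 ν a u) ^ (1 / 2 : ℝ)) * ∫⁻ v, (N2 ν b v) ^ (1 / 2 : ℝ) := by
        rw [Measure.volume_eq_prod, lintegral_prod_mul
          ((N2_meas ν a ha).pow_const _).aemeasurable
          ((N2_meas ν b hb).pow_const _).aemeasurable]
    _ ≤ _ := by
        gcongr
        · exact key a ha hza
        · exact key b hb hzb

end

lemma Atom.meas {p : ℝ} {K : ℝ≥0} {n : ℕ} {A : ℝ≥0∞} {f : ℝ × ℝ → ℂ} (h : Atom p K n A f) :
    Measurable f := by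
  obtain ⟨θ, Λ, _, ν, _, a, b, g, ha, hb, -, -, hg, -, -, hf, -⟩ := h
  have e : f = fun x => (fun w => FF ν a b w * ∏ i, g i w) (rot θ x) := funext hf
  rw [e]
  exact ((FF_meas ν a b ha hb).mul (Finset.measurable_prod _ fun i _ => hg i)).comp
    (rot_cont θ).measurable

lemma Atom.l1 {p : ℝ} (hp : 1 ≤ p) {K : ℝ≥0} {n : ℕ} {A : ℝ≥0∞} {f : ℝ × ℝ → ℂ}
    (h : Atom p K n A f) : ∫⁻ x, ‖f x‖ₑ ≤ A := by
  obtain ⟨θ, Λ, _, ν, _, a, b, g, ha, hb, hza, hzb, hg, hgb, -, hf, hA⟩ := h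
  refine le_trans ?_ hA
  have hm : Measurable fun w => ‖FF ν a b w * ∏ i, g i w‖ₑ :=
    ((FF_meas ν a b ha hb).mul (Finset.measurable_prod _ fun i _ => hg i)).enorm
  have e : ∫⁻ x, ‖f x‖ₑ = ∫⁻ w, ‖FF ν a b w * ∏ i, g i w‖ₑ := by
    rw [← (rot_mp θ).lintegral_comp hm]
    apply lintegral_congr
    intro x
    rw [hf x]
    rfl
  rw [e]
  apply l1_le ν a b ha hb hza hzb p hp
  intro w
  rw [norm_prod]
  exact Finset.prod_le_one (fun i _ => norm_nonneg _) fun i _ => hgb i w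

theorem atom_bound (p q : ℝ) (hq : 3 < q) (hp : 2 ≤ p) (hpq : q < p * (q - 2)) (K : ℝ≥0) (n : ℕ) :
    ∃ C : ℝ≥0, ∀ (A : ℝ≥0∞) (f : ℝ × ℝ → ℂ), A ≠ ∞ → Atom p K n A f →
      eLpNorm (ext f) (ENNReal.ofReal q) volume ≤ C * A := by
  obtain ⟨C, hC⟩ := good_prod p hp K n q hq hpq
  have hq0 : 0 < q := by linarith
  have hp0 : 0 < p := by linarith
  refine ⟨C ^ (1 / q), ?_⟩
  intro A f hAt h
  obtain ⟨θ, Λ, _, ν, _, a, b, g, ha, hb, hza, hzb, hg, hgb, hr, hf, hA⟩ := h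
  have hgood := hC g hg hgb hr
  set G : ℝ × ℝ → ℂ := fun w => FF ν a b w * ∏ i, g i w with hG
  have hGm : Measurable G := (FF_meas ν a b ha hb).mul (Finset.measurable_prod _ fun i _ => hg i)
  have hfG : f = fun x => G (rot θ x) := funext hf
  -- reduction to finite norms
  have hmain : ∫⁻ t, ∫⁻ x, ∫⁻ y, ‖EE G x y t‖ₑ ^ q ≤ C * (nrm ν p a * nrm ν p b) ^ q := by
    by_cases h0 : nrm ν p a = 0 ∨ nrm ν p b = 0
    · have hz : nrm ν p a * nrm ν p b = 0 := by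
        rcases h0 with h0 | h0 <;> simp [h0]
      have h1 := l1_le ν a b ha hb hza hzb p (by linarith) (fun w => ∏ i, g i w) (by
        intro w
        rw [norm_prod]
        exact Finset.prod_le_one (fun i _ => norm_nonneg _) fun i _ => hgb i w)
      rw [hz] at h1
      have h2 : ∀ x y t, ‖EE G x y t‖ₑ ^ q = 0 := by
        intro x y t
        have h3 : ‖EE G x y t‖ₑ ≤ 0 := (EE_sup G x y t).trans h1
        rw [le_antisymm h3 bot_le, ENNReal.zero_rpow_of_pos hq0]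
      simp [h2]
    · push Not at h0
      have hfin : nrm ν p a ≠ ∞ ∧ nrm ν p b ≠ ∞ := by
        constructor
        · intro h1
          rw [h1, ENNReal.top_mul h0.2] at hA
          exact hAt (top_le_iff.1 hA)
        · intro h1
          rw [h1, ENNReal.mul_top h0.1] at hA
          exact hAt (top_le_iff.1 hA)
      have hna := nrm_eq ν a ha hza p hp0
      have hnb := nrm_eq ν b hb hzb p hp0
      have hmt : ∀ X : ℝ≥0∞, X ^ (1 / p) ≠ ∞ → X ≠ ∞ := by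
        intro X hX h1
        rw [h1, ENNReal.top_rpow_of_pos (by positivity)] at hX
        exact hX rfl
      have h3 := good_hom (fun w => ∏ i, g i w) q p hq0 hp0 C hgood Λ ν a b ha hb hza hzb
        (hmt _ (hna ▸ hfin.1)) (hmt _ (hnb ▸ hfin.2))
      refine h3.trans (le_of_eq ?_)
      rw [hna, hnb, ENNReal.mul_rpow_of_nonneg _ _ hq0.le, ← ENNReal.rpow_mul, ← ENNReal.rpow_mul,
        mul_assoc]
      congr 3 <;> ring
  have hGE : Measurable fun z : ℝ × ℝ × ℝ => ‖EE G z.1 z.2.1 z.2.2‖ₑ ^ q :=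
    (EE_meas G hGm).enorm.pow_const q
  have h4 : ∫⁻ ξ, ‖ext f ξ‖ₑ ^ q ≤ C * A ^ q := by
    calc ∫⁻ ξ, ‖ext f ξ‖ₑ ^ q = ∫⁻ ξ : ℝ × ℝ × ℝ,
          (fun x y t => ‖EE G x y t‖ₑ ^ q) (rot θ (ξ.1, ξ.2.1)).1 (rot θ (ξ.1, ξ.2.1)).2 ξ.2.2 := by
          apply lintegral_congr
          intro ξ
          rw [hfG, ext_rot]
      _ = ∫⁻ t, ∫⁻ x, ∫⁻ y, ‖EE G x y t‖ₑ ^ q :=
          lint_rot θ (fun x y t => ‖EE G x y t‖ₑ ^ q) hGE
      _ ≤ C * (nrm ν p a * nrm ν p b) ^ q := hmain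
      _ ≤ C * A ^ q := by gcongr
  rw [eLpNorm_eq_lintegral_rpow_enorm_toReal (by simpa using hq0) ENNReal.ofReal_ne_top,
    ENNReal.toReal_ofReal hq0.le]
  calc (∫⁻ ξ, ‖ext f ξ‖ₑ ^ q) ^ (1 / q) ≤ (C * A ^ q) ^ (1 / q) := by gcongr
    _ = _ := by
        rw [ENNReal.mul_rpow_of_nonneg _ _ (by positivity), ← ENNReal.rpow_mul,
          mul_one_div_cancel hq0.ne', ENNReal.rpow_one, ENNReal.coe_rpow_of_nonneg _ (by positivity)]

theorem main (p q : ℝ) (hq : 3 < q) (hp : 2 ≤ p) (hpq : q < p * (q - 2)) (K : ℝ≥0) (n : ℕ) :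
    ∃ C : ℝ≥0, ∀ (F : ℕ → ℝ × ℝ → ℂ) (A : ℕ → ℝ≥0∞) (f : ℝ × ℝ → ℂ),
      (∀ j, Atom p K n (A j) (F j)) → ∑' j, A j ≠ ∞ → (∀ᵐ x, f x = ∑' j, F j x) →
      eLpNorm (ext f) (ENNReal.ofReal q) volume ≤ C * ∑' j, A j := by
  obtain ⟨C, hC⟩ := atom_bound p q hq hp hpq K n
  refine ⟨C, ?_⟩
  intro F A f hF hA hf
  have h1 : ∑' j, ∫⁻ x, ‖F j x‖ₑ ≠ ∞ :=
    ne_top_of_le_ne_top hA (ENNReal.tsum_le_tsum fun j => (hF j).l1 (by linarith))
  refine (ext_sum_le (fun j => (hF j).meas) h1 hf ?_).trans ?_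
  · rw [← ENNReal.ofReal_one]
    exact ENNReal.ofReal_le_ofReal (by linarith)
  · rw [← ENNReal.tsum_mul_left]
    exact ENNReal.tsum_le_tsum fun j => hC _ _ (ENNReal.ne_top_of_tsum_ne_top hA j) (hF j)

/-- Products of functions of one coordinate. -/
theorem prod_bound (q : ℝ) (hq : 3 < q) : ∃ C : ℝ≥0, ∀ (θ : ℝ) (a b : ℝ → ℂ),
    Measurable a → Measurable b → (∀ u ∉ J, a u = 0) → (∀ v ∉ J, b v = 0) →
    eLpNorm (ext fun x => a (rot θ x).1 * b (rot θ x).2) (ENNReal.ofReal q) volume ≤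
      C * eLpNorm (fun x : ℝ × ℝ => a (rot θ x).1 * b (rot θ x).2) (ENNReal.ofReal q) volume := by
  obtain ⟨C, hC⟩ := atom_bound q q hq (by linarith) (by nlinarith) 0 0
  have hq0 : 0 < q := by linarith
  refine ⟨C + 1, ?_⟩
  intro θ a b ha hb hza hzb
  have hnrm : ∀ c : ℝ → ℂ, nrm (Measure.dirac ()) q (fun u (_ : Unit) => c u) =
      (∫⁻ u, ‖c u‖ₑ ^ q) ^ (1 / q) := by
    intro c
    unfold nrm
    congr 1
    apply lintegral_congr
    intro u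
    rw [lintegral_dirac, ← ENNReal.rpow_natCast, ← ENNReal.rpow_mul]
    congr 1
    push_cast
    ring
  set f : ℝ × ℝ → ℂ := fun x => a (rot θ x).1 * b (rot θ x).2 with hf
  have hF : Measurable fun w : ℝ × ℝ => a w.1 * b w.2 := by fun_prop
  have h1 : eLpNorm f (ENNReal.ofReal q) volume =
      (∫⁻ u, ‖a u‖ₑ ^ q) ^ (1 / q) * (∫⁻ v, ‖b v‖ₑ ^ q) ^ (1 / q) := by
    rw [eLpNorm_eq_lintegral_rpow_enorm_toReal (by simpa using hq0) ENNReal.ofReal_ne_top,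
      ENNReal.toReal_ofReal hq0.le, ← ENNReal.mul_rpow_of_nonneg _ _ (by positivity)]
    congr 1
    have h2 : ∫⁻ x, ‖f x‖ₑ ^ q = ∫⁻ w : ℝ × ℝ, ‖a w.1 * b w.2‖ₑ ^ q :=
      (rot_mp θ).lintegral_comp (f := fun w : ℝ × ℝ => ‖a w.1 * b w.2‖ₑ ^ q)
        (hF.enorm.pow_const q)
    rw [h2, Measure.volume_eq_prod]
    have h3 : ∀ w : ℝ × ℝ, ‖a w.1 * b w.2‖ₑ ^ q = ‖a w.1‖ₑ ^ q * ‖b w.2‖ₑ ^ q := by
      intro w
      rw [enorm_mul, ENNReal.mul_rpow_of_nonneg _ _ hq0.le]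
    simp only [h3]
    rw [lintegral_prod_mul (ha.enorm.pow_const q).aemeasurable (hb.enorm.pow_const q).aemeasurable]
  by_cases htop : eLpNorm f (ENNReal.ofReal q) volume = ∞
  · rw [htop, ENNReal.mul_top (by simp)]
    exact le_top
  · refine le_trans ?_ (mul_le_mul_left (a := eLpNorm f (ENNReal.ofReal q) volume)
      (show (C : ℝ≥0∞) ≤ ((C + 1 : ℝ≥0) : ℝ≥0∞) from by exact_mod_cast le_self_add))
    apply hC _ f htop
    refine ⟨θ, Unit, inferInstance, Measure.dirac (), inferInstance, fun u _ => a u,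
      fun v _ => b v, fun _ _ => 1, ha.comp measurable_fst, hb.comp measurable_fst,
      fun u hu _ => hza u hu, fun v hv _ => hzb v hv, fun i => i.elim0, fun i => i.elim0,
      fun i => i.elim0, ?_, ?_⟩
    · intro x
      rw [integral_dirac]
      simp [hf]
    · rw [hnrm, hnrm, h1]

end Pool.Agent.V1157.TD
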